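import Mathlib

/-!
# A Borel vertically rigid function with non-translation isometries

We construct a Borel measurable, vertically rigid function `f : ℝ → ℝ`, not of the form `a + b x`,
such that for *every* `c > 0` the graph of `c f` is carried onto the graph of `f` by a plane
isometry which is not a translation (a glide reflection `(x, y) ↦ (x + t, -y)` with `t ≠ 0`).

`f` is supported on the (σ-compact) group `T` of all numbers `∑ₘ n_{κ(m)} 2^{-m²}`, where `n` runs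
over the bounded integer sequences and `κ : ℕ → ℕ` takes every value infinitely often; on `T` it is
the character `(-1)^{n₀} exp (∑ₖ n_{k+1} 2^{-k})`, which is onto the nonzero reals.
-/

namespace Pool.Agent.Results.MP_f4f8d7_an.BorelGlide

open Set Filter Topology

/-- The Euclidean plane. -/
abbrev Plane : Type := EuclideanSpace ℝ (Fin 2)

/-- The graph of `f : ℝ → ℝ` as a subset of the Euclidean plane. -/
def graph (f : ℝ → ℝ) : Set Plane := {p | p 1 = f (p 0)}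

/-- `f` is vertically rigid: for every `c > 0` some isometry of the plane carries the graph of
`c f` onto the graph of `f`. -/
def VerticallyRigid (f : ℝ → ℝ) : Prop :=
  ∀ c : ℝ, 0 < c → ∃ φ : Plane ≃ᵢ Plane, φ '' graph (fun x => c * f x) = graph f

/-- `φ` is a translation. -/
def IsTranslation (φ : Plane ≃ᵢ Plane) : Prop := ∃ v : Plane, ∀ p, φ p = p + v

/-! ### The group of parameters -/

/-- bounded integer sequences with bound `C` -/
def X (C : ℕ) : Set (ℕ → ℤ) := Set.pi univ fun _ => Icc (-(C : ℤ)) C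

theorem mem_X {C : ℕ} {n : ℕ → ℤ} : n ∈ X C ↔ ∀ k, |n k| ≤ C := by
  simp only [X, mem_univ_pi, mem_Icc, abs_le]

theorem isCompact_X (C : ℕ) : IsCompact (X C) :=
  isCompact_univ_pi fun _ => (Set.finite_Icc _ _).isCompact

/-- bounded integer sequences -/
def Bdd (n : ℕ → ℤ) : Prop := ∃ C : ℕ, n ∈ X C

theorem Bdd.add {n m : ℕ → ℤ} (hn : Bdd n) (hm : Bdd m) : Bdd (fun k => n k + m k) := by
  obtain ⟨C, hC⟩ := hn
  obtain ⟨D, hD⟩ := hm
  refine ⟨C + D, mem_X.2 fun k => ?_⟩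
  have h1 := mem_X.1 hC k
  have h2 := mem_X.1 hD k
  push_cast
  exact (abs_add_le _ _).trans (add_le_add h1 h2)

theorem Bdd.neg {n : ℕ → ℤ} (hn : Bdd n) : Bdd (fun k => - n k) := by
  obtain ⟨C, hC⟩ := hn
  refine ⟨C, mem_X.2 fun k => ?_⟩
  have h1 := mem_X.1 hC k
  rwa [abs_neg]

/-- the index function, taking every value infinitely often -/
def κ (m : ℕ) : ℕ := (Nat.unpair m).1

/-- the embedding of bounded integer sequences into the line -/
noncomputable def Φ (n : ℕ → ℤ) : ℝ := ∑' m : ℕ, (n (κ m) : ℝ) * (1 / 2 : ℝ) ^ (m ^ 2)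

/-- the exponent of the character -/
noncomputable def ℓ (n : ℕ → ℤ) : ℝ := ∑' k : ℕ, (n (k + 1) : ℝ) * (1 / 2 : ℝ) ^ k

/-- the character on bounded integer sequences -/
noncomputable def χ (n : ℕ → ℤ) : ℝ := (-1 : ℝ) ^ (n 0) * Real.exp (ℓ n)

theorem cast_bound {C : ℕ} {n : ℕ → ℤ} (hn : n ∈ X C) (k : ℕ) : |(n k : ℝ)| ≤ C := by
  have h1 := mem_X.1 hn k
  exact_mod_cast h1

theorem geo_le (m : ℕ) : (1 / 2 : ℝ) ^ (m ^ 2) ≤ (1 / 2 : ℝ) ^ m :=
  pow_le_pow_of_le_one (by norm_num) (by norm_num) (Nat.le_self_pow two_ne_zero m)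

theorem summable_geo (C : ℕ) : Summable fun m : ℕ => (C : ℝ) * (1 / 2 : ℝ) ^ m :=
  (summable_geometric_of_lt_one (by norm_num) (by norm_num)).mul_left _

theorem term_bound_Φ {C : ℕ} {n : ℕ → ℤ} (hn : n ∈ X C) (m : ℕ) :
    ‖(n (κ m) : ℝ) * (1 / 2 : ℝ) ^ (m ^ 2)‖ ≤ (C : ℝ) * (1 / 2 : ℝ) ^ m := by
  have h1 := cast_bound hn (κ m)
  have h2 := geo_le m
  rw [Real.norm_eq_abs, abs_mul, abs_of_pos (by positivity : (0 : ℝ) < (1 / 2 : ℝ) ^ (m ^ 2))]
  exact mul_le_mul h1 h2 (by positivity) (by positivity)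

theorem term_bound_ℓ {C : ℕ} {n : ℕ → ℤ} (hn : n ∈ X C) (k : ℕ) :
    ‖(n (k + 1) : ℝ) * (1 / 2 : ℝ) ^ k‖ ≤ (C : ℝ) * (1 / 2 : ℝ) ^ k := by
  have h1 := cast_bound hn (k + 1)
  rw [Real.norm_eq_abs, abs_mul, abs_of_pos (by positivity : (0 : ℝ) < (1 / 2 : ℝ) ^ k)]
  exact mul_le_mul_of_nonneg_right h1 (by positivity)

theorem summable_Φ {n : ℕ → ℤ} (hn : Bdd n) :
    Summable fun m : ℕ => (n (κ m) : ℝ) * (1 / 2 : ℝ) ^ (m ^ 2) := by
  obtain ⟨C, hC⟩ := hn
  exact Summable.of_norm_bounded (summable_geo C) (term_bound_Φ hC)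

theorem summable_ℓ {n : ℕ → ℤ} (hn : Bdd n) :
    Summable fun k : ℕ => (n (k + 1) : ℝ) * (1 / 2 : ℝ) ^ k := by
  obtain ⟨C, hC⟩ := hn
  exact Summable.of_norm_bounded (summable_geo C) (term_bound_ℓ hC)

theorem Φ_add {n m : ℕ → ℤ} (hn : Bdd n) (hm : Bdd m) : Φ (fun k => n k + m k) = Φ n + Φ m := by
  unfold Φ
  rw [← (summable_Φ hn).tsum_add (summable_Φ hm)]
  refine tsum_congr fun k => ?_
  push_cast
  ring

theorem Φ_neg (n : ℕ → ℤ) : Φ (fun k => - n k) = - Φ n := by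
  unfold Φ
  rw [← tsum_neg]
  refine tsum_congr fun k => ?_
  push_cast
  ring

theorem ℓ_add {n m : ℕ → ℤ} (hn : Bdd n) (hm : Bdd m) : ℓ (fun k => n k + m k) = ℓ n + ℓ m := by
  unfold ℓ
  rw [← (summable_ℓ hn).tsum_add (summable_ℓ hm)]
  refine tsum_congr fun k => ?_
  push_cast
  ring

theorem χ_add {n m : ℕ → ℤ} (hn : Bdd n) (hm : Bdd m) : χ (fun k => n k + m k) = χ n * χ m := by
  unfold χ
  rw [ℓ_add hn hm, Real.exp_add, zpow_add₀ (by norm_num)]
  ring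

theorem χ_ne_zero (n : ℕ → ℤ) : χ n ≠ 0 :=
  mul_ne_zero (zpow_ne_zero _ (by norm_num)) (Real.exp_pos _).ne'

theorem continuousOn_Φ (C : ℕ) : ContinuousOn Φ (X C) := by
  unfold Φ
  refine continuousOn_tsum ?_ (summable_geo C) ?_
  · intro m
    refine Continuous.continuousOn ?_
    refine Continuous.mul ?_ continuous_const
    exact (continuous_of_discreteTopology (f := fun z : ℤ => (z : ℝ))).comp (continuous_apply (κ m))
  · intro m n hn
    exact term_bound_Φ hn m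

theorem continuousOn_ℓ (C : ℕ) : ContinuousOn ℓ (X C) := by
  unfold ℓ
  refine continuousOn_tsum ?_ (summable_geo C) ?_
  · intro m
    refine Continuous.continuousOn ?_
    refine Continuous.mul ?_ continuous_const
    exact (continuous_of_discreteTopology (f := fun z : ℤ => (z : ℝ))).comp
      (continuous_apply (m + 1))
  · intro m n hn
    exact term_bound_ℓ hn m

theorem continuousOn_χ (C : ℕ) : ContinuousOn χ (X C) := by
  unfold χ
  refine ContinuousOn.mul ?_ (Real.continuous_exp.comp_continuousOn (continuousOn_ℓ C))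
  refine Continuous.continuousOn ?_
  exact (continuous_of_discreteTopology (f := fun z : ℤ => (-1 : ℝ) ^ z)).comp (continuous_apply 0)

/-- Injectivity of `Φ` on bounded sequences, kernel form. -/
theorem eq_zero_of_Φ_eq_zero {d : ℕ → ℤ} (hd : Bdd d) (h : Φ d = 0) (k : ℕ) : d k = 0 := by
  obtain ⟨C, hC⟩ := hd
  have hs : Summable fun m : ℕ => (d (κ m) : ℝ) * (1 / 2 : ℝ) ^ (m ^ 2) := summable_Φ ⟨C, hC⟩
  -- partial sums
  set S : ℕ → ℝ := fun M => ∑ m ∈ Finset.range M, (d (κ m) : ℝ) * (1 / 2 : ℝ) ^ (m ^ 2) with hS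
  -- integrality
  have hint : ∀ M : ℕ, ∃ z : ℤ, (2 : ℝ) ^ (M ^ 2) * S (M + 1) = z := by
    intro M
    refine ⟨∑ m ∈ Finset.range (M + 1), d (κ m) * 2 ^ (M ^ 2 - m ^ 2), ?_⟩
    push_cast
    rw [hS]
    simp only
    rw [Finset.mul_sum]
    refine Finset.sum_congr rfl fun m hm => ?_
    have hmM : m ^ 2 ≤ M ^ 2 := Nat.pow_le_pow_left (by
      have := Finset.mem_range.1 hm; omega) 2
    have e : (2 : ℝ) ^ (M ^ 2) = 2 ^ (M ^ 2 - m ^ 2) * 2 ^ (m ^ 2) := by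
      rw [← pow_add]; congr 1; omega
    rw [e]
    have e2 : (2 : ℝ) ^ (m ^ 2) * (1 / 2 : ℝ) ^ (m ^ 2) = 1 := by
      rw [← mul_pow]; norm_num
    calc (2 : ℝ) ^ (M ^ 2 - m ^ 2) * 2 ^ (m ^ 2) * ((d (κ m) : ℝ) * (1 / 2 : ℝ) ^ (m ^ 2))
        = (d (κ m) : ℝ) * 2 ^ (M ^ 2 - m ^ 2) * ((2 : ℝ) ^ (m ^ 2) * (1 / 2 : ℝ) ^ (m ^ 2)) := by
          ring
      _ = (d (κ m) : ℝ) * 2 ^ (M ^ 2 - m ^ 2) := by rw [e2, mul_one]
  -- smallness
  have hsmall : ∀ M : ℕ, |S M| ≤ 2 * C * (1 / 2 : ℝ) ^ (M ^ 2) := by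
    intro M
    have h1 : S M + ∑' m : ℕ, (d (κ (m + M)) : ℝ) * (1 / 2 : ℝ) ^ ((m + M) ^ 2) = 0 := by
      rw [hs.sum_add_tsum_nat_add M]; exact h
    have h2 : |∑' m : ℕ, (d (κ (m + M)) : ℝ) * (1 / 2 : ℝ) ^ ((m + M) ^ 2)|
        ≤ C * (1 / 2 : ℝ) ^ (M ^ 2) * 2 := by
      have hg : HasSum (fun m : ℕ => C * (1 / 2 : ℝ) ^ (M ^ 2) * (1 / 2 : ℝ) ^ m)
          (C * (1 / 2 : ℝ) ^ (M ^ 2) * 2) := hasSum_geometric_two.mul_left _
      rw [← Real.norm_eq_abs]
      refine tsum_of_norm_bounded hg ?_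
      intro m
      have h3 := cast_bound hC (κ (m + M))
      rw [Real.norm_eq_abs, abs_mul,
        abs_of_pos (by positivity : (0 : ℝ) < (1 / 2 : ℝ) ^ ((m + M) ^ 2)), mul_assoc]
      refine mul_le_mul h3 ?_ (by positivity) (by positivity)
      rw [← pow_add]
      refine pow_le_pow_of_le_one (by norm_num) (by norm_num) ?_
      have h5 : m ≤ m ^ 2 := Nat.le_self_pow two_ne_zero m
      have h6 : (m + M) ^ 2 = m ^ 2 + 2 * (m * M) + M ^ 2 := by ring
      rw [h6]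
      omega
    have h4 : S M = -∑' m : ℕ, (d (κ (m + M)) : ℝ) * (1 / 2 : ℝ) ^ ((m + M) ^ 2) := by linarith
    rw [h4, abs_neg]
    linarith
  -- for large `M` the partial sums vanish
  obtain ⟨M0, hM0⟩ : ∃ M0 : ℕ, (C : ℝ) < 2 ^ M0 := by
    obtain ⟨M0, h⟩ := pow_unbounded_of_one_lt (C : ℝ) (one_lt_two)
    exact ⟨M0, h⟩
  have hzero : ∀ M : ℕ, M0 ≤ M → S (M + 1) = 0 := by
    intro M hM
    obtain ⟨z, hz⟩ := hint M
    have h1 := hsmall (M + 1)
    have hpos : (0 : ℝ) < 2 ^ (M ^ 2) := by positivity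
    have h2 : |(z : ℝ)| < 1 := by
      rw [← hz, abs_mul, abs_of_pos hpos]
      have h3 : (2 : ℝ) ^ (M ^ 2) * |S (M + 1)| ≤
          2 ^ (M ^ 2) * (2 * C * (1 / 2 : ℝ) ^ ((M + 1) ^ 2)) :=
        mul_le_mul_of_nonneg_left h1 hpos.le
      have e : (1 / 2 : ℝ) ^ ((M + 1) ^ 2) = (1 / 2 : ℝ) ^ (M ^ 2) * ((1 / 2 : ℝ) ^ M *
          (1 / 2 : ℝ) ^ M * (1 / 2)) := by
        rw [← pow_add, ← pow_succ, ← pow_add]; congr 1; ring
      have e2 : (2 : ℝ) ^ (M ^ 2) * (1 / 2 : ℝ) ^ (M ^ 2) = 1 := by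
        rw [← mul_pow]; norm_num
      have e3 : (2 : ℝ) ^ (M ^ 2) * (2 * C * (1 / 2 : ℝ) ^ ((M + 1) ^ 2))
          = C * (1 / 2 : ℝ) ^ M * (1 / 2 : ℝ) ^ M := by
        rw [e]
        calc (2 : ℝ) ^ (M ^ 2) * (2 * C * ((1 / 2 : ℝ) ^ (M ^ 2) * ((1 / 2 : ℝ) ^ M *
              (1 / 2 : ℝ) ^ M * (1 / 2))))
            = ((2 : ℝ) ^ (M ^ 2) * (1 / 2 : ℝ) ^ (M ^ 2)) * (C * (1 / 2 : ℝ) ^ M *
              (1 / 2 : ℝ) ^ M) := by ring
          _ = C * (1 / 2 : ℝ) ^ M * (1 / 2 : ℝ) ^ M := by rw [e2, one_mul]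
      have h5 : (C : ℝ) * (1 / 2 : ℝ) ^ M < 1 := by
        have h6 : (2 : ℝ) ^ M0 ≤ 2 ^ M := pow_le_pow_right₀ (by norm_num) hM
        have h7 : (0 : ℝ) < (1 / 2 : ℝ) ^ M := by positivity
        have e4 : (2 : ℝ) ^ M * (1 / 2 : ℝ) ^ M = 1 := by
          rw [← mul_pow]; norm_num
        calc (C : ℝ) * (1 / 2 : ℝ) ^ M < 2 ^ M * (1 / 2 : ℝ) ^ M :=
              mul_lt_mul_of_pos_right (hM0.trans_le h6) h7
          _ = 1 := e4
      have h8 : (1 / 2 : ℝ) ^ M ≤ 1 := pow_le_one₀ (by norm_num) (by norm_num)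
      have h9 : (0 : ℝ) ≤ C * (1 / 2 : ℝ) ^ M := by positivity
      calc (2 : ℝ) ^ (M ^ 2) * |S (M + 1)| ≤ C * (1 / 2 : ℝ) ^ M * (1 / 2 : ℝ) ^ M :=
            h3.trans_eq e3
        _ ≤ C * (1 / 2 : ℝ) ^ M * 1 := mul_le_mul_of_nonneg_left h8 h9
        _ < 1 := by rw [mul_one]; exact h5
    have h3 : z = 0 := by
      have : |z| < 1 := by exact_mod_cast h2
      exact Int.abs_lt_one_iff.1 this
    rw [h3, Int.cast_zero] at hz
    exact (mul_eq_zero.1 hz).resolve_left hpos.ne'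
  -- conclusion
  have hk : κ (Nat.pair k (M0 + 1)) = k := by simp [κ]
  have hge : M0 + 1 ≤ Nat.pair k (M0 + 1) := Nat.right_le_pair _ _
  obtain ⟨j, hj⟩ : ∃ j, Nat.pair k (M0 + 1) = j + 1 := ⟨Nat.pair k (M0 + 1) - 1, by omega⟩
  have hj0 : M0 ≤ j := by omega
  have h1 := hzero j hj0
  have h2 := hzero (j + 1) (by omega)
  have h3 : S (j + 1 + 1) = S (j + 1) + (d (κ (j + 1)) : ℝ) * (1 / 2 : ℝ) ^ ((j + 1) ^ 2) :=
    Finset.sum_range_succ _ _
  rw [h1, h2, zero_add] at h3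
  have h4 : (d (κ (j + 1)) : ℝ) = 0 := by
    rcases mul_eq_zero.1 h3.symm with h | h
    · exact h
    · exact absurd h (by positivity)
  rw [← hj, hk] at h4
  exact_mod_cast h4

theorem Φ_injective {n m : ℕ → ℤ} (hn : Bdd n) (hm : Bdd m) (h : Φ n = Φ m) : n = m := by
  funext k
  have h1 : Φ (fun k => n k + - m k) = 0 := by
    rw [Φ_add hn hm.neg, Φ_neg, h]; ring
  have := eq_zero_of_Φ_eq_zero (hn.add hm.neg) h1 k
  omega

/-! ### The function -/

open Classical in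
/-- the function: the character on the group `Φ(bounded sequences)`, zero elsewhere -/
noncomputable def f (x : ℝ) : ℝ :=
  if h : ∃ n : ℕ → ℤ, Bdd n ∧ Φ n = x then χ h.choose else 0

theorem f_Φ {n : ℕ → ℤ} (hn : Bdd n) : f (Φ n) = χ n := by
  have h : ∃ m : ℕ → ℤ, Bdd m ∧ Φ m = Φ n := ⟨n, hn, rfl⟩
  unfold f
  rw [dif_pos h]
  congr 1
  exact Φ_injective h.choose_spec.1 hn h.choose_spec.2

theorem f_of_not {x : ℝ} (h : ¬ ∃ n : ℕ → ℤ, Bdd n ∧ Φ n = x) : f x = 0 := by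
  unfold f
  rw [dif_neg h]

/-- the functional equation -/
theorem f_add {m : ℕ → ℤ} (hm : Bdd m) (x : ℝ) : f (x + Φ m) = χ m * f x := by
  by_cases h : ∃ n : ℕ → ℤ, Bdd n ∧ Φ n = x
  · obtain ⟨n, hn, rfl⟩ := h
    rw [← Φ_add hn hm, f_Φ (hn.add hm), f_Φ hn, χ_add hn hm, mul_comm]
  · have h' : ¬ ∃ n : ℕ → ℤ, Bdd n ∧ Φ n = x + Φ m := by
      rintro ⟨n, hn, hnx⟩
      refine h ⟨fun k => n k + - m k, hn.add hm.neg, ?_⟩
      rw [Φ_add hn hm.neg, Φ_neg, hnx]; ring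
    rw [f_of_not h, f_of_not h', mul_zero]

theorem preimage_closed {K : Set ℝ} (h0 : (0 : ℝ) ∉ K) :
    f ⁻¹' K = ⋃ C : ℕ, Φ '' (X C ∩ χ ⁻¹' K) := by
  ext x
  simp only [mem_preimage, mem_iUnion, mem_image, mem_inter_iff]
  constructor
  · intro hx
    by_cases h : ∃ n : ℕ → ℤ, Bdd n ∧ Φ n = x
    · obtain ⟨n, ⟨C, hC⟩, rfl⟩ := h
      exact ⟨C, n, ⟨hC, by rwa [f_Φ ⟨C, hC⟩] at hx⟩, rfl⟩
    · rw [f_of_not h] at hx
      exact absurd hx h0
  · rintro ⟨C, n, ⟨hC, hK⟩, rfl⟩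
    rwa [f_Φ ⟨C, hC⟩]

theorem measurableSet_preimage {K : Set ℝ} (hK : IsClosed K) (h0 : (0 : ℝ) ∉ K) :
    MeasurableSet (f ⁻¹' K) := by
  rw [preimage_closed h0]
  refine MeasurableSet.iUnion fun C => ?_
  have h1 : IsClosed (X C ∩ χ ⁻¹' K) :=
    (continuousOn_χ C).preimage_isClosed_of_isClosed (isCompact_X C).isClosed hK
  have h2 : IsCompact (X C ∩ χ ⁻¹' K) :=
    (isCompact_X C).of_isClosed_subset h1 inter_subset_left
  exact (h2.image_of_continuousOn ((continuousOn_Φ C).mono inter_subset_left)).isClosed.measurableSet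

theorem measurable_f : Measurable f := by
  refine measurable_of_Ioi fun a => ?_
  rcases lt_or_ge a 0 with ha | ha
  · have : f ⁻¹' Ioi a = (f ⁻¹' Iic a)ᶜ := by
      rw [← preimage_compl, compl_Iic]
    rw [this]
    exact (measurableSet_preimage isClosed_Iic (by simpa using ha)).compl
  · have : f ⁻¹' Ioi a = ⋃ k : ℕ, f ⁻¹' Ici (a + 1 / (k + 1)) := by
      rw [← preimage_iUnion]
      congr 1
      ext y
      simp only [mem_Ioi, mem_iUnion, mem_Ici]
      constructor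
      · intro hy
        obtain ⟨k, hk⟩ := exists_nat_one_div_lt (sub_pos.2 hy)
        exact ⟨k, by linarith⟩
      · rintro ⟨k, hk⟩
        have : (0 : ℝ) < 1 / (k + 1) := by positivity
        linarith
    rw [this]
    refine MeasurableSet.iUnion fun k => measurableSet_preimage isClosed_Ici ?_
    simp only [mem_Ici, not_le]
    have : (0 : ℝ) < 1 / (k + 1) := by positivity
    linarith

/-! ### Surjectivity of the character -/

/-- binary digits of `y` (the zeroth one is `⌊y⌋`), shifted by one, with prescribed zeroth term -/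
noncomputable def dig (s : ℤ) (y : ℝ) : ℕ → ℤ
  | 0 => s
  | 1 => ⌊y⌋
  | (k + 2) => ⌊(2 : ℝ) ^ (k + 1) * y⌋ - 2 * ⌊(2 : ℝ) ^ k * y⌋

theorem bdd_dig (s : ℤ) (y : ℝ) : Bdd (dig s y) := by
  refine ⟨(|s| + |⌊y⌋| + 1).toNat, mem_X.2 fun k => ?_⟩
  have h0 : 0 ≤ |s| + |⌊y⌋| + 1 := by positivity
  rw [Int.toNat_of_nonneg h0]
  have hs := abs_nonneg s
  have hy := abs_nonneg ⌊y⌋
  match k with
  | 0 => simp only [dig]; omega
  | 1 => simp only [dig]; omega
  | (k + 2) =>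
    simp only [dig]
    have h1 := Int.floor_le ((2 : ℝ) ^ (k + 1) * y)
    have h2 := Int.lt_floor_add_one ((2 : ℝ) ^ (k + 1) * y)
    have h3 := Int.floor_le ((2 : ℝ) ^ k * y)
    have h4 := Int.lt_floor_add_one ((2 : ℝ) ^ k * y)
    have e : (2 : ℝ) ^ (k + 1) * y = 2 * (2 ^ k * y) := by rw [pow_succ]; ring
    rw [e] at h1 h2 ⊢
    have h5 : ((⌊2 * (2 ^ k * y)⌋ - 2 * ⌊(2 : ℝ) ^ k * y⌋ : ℤ) : ℝ) < 2 := by
      push_cast; linarith
    have h6 : (-1 : ℝ) < ((⌊2 * (2 ^ k * y)⌋ - 2 * ⌊(2 : ℝ) ^ k * y⌋ : ℤ) : ℝ) := by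
      push_cast; linarith
    have h7 : ⌊2 * (2 ^ k * y)⌋ - 2 * ⌊(2 : ℝ) ^ k * y⌋ < 2 := by exact_mod_cast h5
    have h8 : -1 < ⌊2 * (2 ^ k * y)⌋ - 2 * ⌊(2 : ℝ) ^ k * y⌋ := by exact_mod_cast h6
    rw [abs_le]
    constructor <;> omega

theorem ℓ_dig (s : ℤ) (y : ℝ) : ℓ (dig s y) = y := by
  have hs := summable_ℓ (bdd_dig s y)
  have h1 : Tendsto (fun K : ℕ => ∑ k ∈ Finset.range K, (dig s y (k + 1) : ℝ) * (1 / 2 : ℝ) ^ k)
      atTop (𝓝 (ℓ (dig s y))) := hs.hasSum.tendsto_sum_nat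
  have h1' := (tendsto_add_atTop_iff_nat 1).2 h1
  have hpart : ∀ K : ℕ, ∑ k ∈ Finset.range (K + 1), (dig s y (k + 1) : ℝ) * (1 / 2 : ℝ) ^ k
      = ⌊(2 : ℝ) ^ K * y⌋ * (1 / 2 : ℝ) ^ K := by
    intro K
    induction K with
    | zero => simp [dig]
    | succ K ih =>
      rw [Finset.sum_range_succ, ih]
      simp only [dig]
      push_cast
      rw [pow_succ (1 / 2 : ℝ) K]
      ring
  have h2 : Tendsto (fun K : ℕ => (⌊(2 : ℝ) ^ K * y⌋ : ℝ) * (1 / 2 : ℝ) ^ K) atTop (𝓝 y) := by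
    have hlow : Tendsto (fun K : ℕ => y - (1 / 2 : ℝ) ^ K) atTop (𝓝 y) := by
      have := (tendsto_pow_atTop_nhds_zero_of_lt_one (r := (1 / 2 : ℝ)) (by norm_num)
        (by norm_num)).const_sub y
      simpa using this
    refine tendsto_of_tendsto_of_tendsto_of_le_of_le hlow tendsto_const_nhds ?_ ?_
    · intro K
      have h4 := Int.lt_floor_add_one ((2 : ℝ) ^ K * y)
      have e4 : (2 : ℝ) ^ K * (1 / 2 : ℝ) ^ K = 1 := by rw [← mul_pow]; norm_num
      have h7 : (0 : ℝ) < (1 / 2 : ℝ) ^ K := by positivity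
      have h5 : (2 : ℝ) ^ K * y * (1 / 2 : ℝ) ^ K < (⌊(2 : ℝ) ^ K * y⌋ + 1) * (1 / 2 : ℝ) ^ K :=
        mul_lt_mul_of_pos_right h4 h7
      have h6 : (2 : ℝ) ^ K * y * (1 / 2 : ℝ) ^ K = y := by
        calc (2 : ℝ) ^ K * y * (1 / 2 : ℝ) ^ K = y * ((2 : ℝ) ^ K * (1 / 2 : ℝ) ^ K) := by ring
          _ = y := by rw [e4, mul_one]
      simp only
      linarith
    · intro K
      have h4 := Int.floor_le ((2 : ℝ) ^ K * y)
      have e4 : (2 : ℝ) ^ K * (1 / 2 : ℝ) ^ K = 1 := by rw [← mul_pow]; norm_num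
      have h7 : (0 : ℝ) < (1 / 2 : ℝ) ^ K := by positivity
      have h5 : (⌊(2 : ℝ) ^ K * y⌋ : ℝ) * (1 / 2 : ℝ) ^ K ≤ (2 : ℝ) ^ K * y * (1 / 2 : ℝ) ^ K :=
        mul_le_mul_of_nonneg_right h4 h7.le
      have h6 : (2 : ℝ) ^ K * y * (1 / 2 : ℝ) ^ K = y := by
        calc (2 : ℝ) ^ K * y * (1 / 2 : ℝ) ^ K = y * ((2 : ℝ) ^ K * (1 / 2 : ℝ) ^ K) := by ring
          _ = y := by rw [e4, mul_one]
      simp only
      linarith
  have h3 : Tendsto (fun K : ℕ => ∑ k ∈ Finset.range (K + 1), (dig s y (k + 1) : ℝ) *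
      (1 / 2 : ℝ) ^ k) atTop (𝓝 y) := by
    simp_rw [hpart]; exact h2
  exact tendsto_nhds_unique h1' h3

/-- the character takes every nonzero real value -/
theorem χ_surj {r : ℝ} (hr : r ≠ 0) : ∃ n : ℕ → ℤ, Bdd n ∧ χ n = r := by
  rcases lt_or_gt_of_ne hr with h | h
  · refine ⟨dig 1 (Real.log (-r)), bdd_dig _ _, ?_⟩
    unfold χ
    rw [ℓ_dig, Real.exp_log (by linarith)]
    simp [dig]
  · refine ⟨dig 0 (Real.log r), bdd_dig _ _, ?_⟩
    unfold χ
    rw [ℓ_dig, Real.exp_log h]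
    simp [dig]

/-! ### The isometries -/

/-- the isometry `(x, y) ↦ (x + t, y)` -/
noncomputable def shift (t : ℝ) : Plane ≃ᵢ Plane := IsometryEquiv.addRight (!₂[t, 0] : Plane)

/-- the reflection `(x, y) ↦ (x, -y)` as an isometry -/
noncomputable def refl : Plane ≃ᵢ Plane :=
  IsometryEquiv.mk'
    (fun p : Plane => (!₂[p 0, - p 1] : Plane)) (fun p : Plane => (!₂[p 0, - p 1] : Plane))
    (by
      intro p
      ext i
      fin_cases i <;> simp)
    (by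
      refine Isometry.of_dist_eq fun p q => ?_
      rw [EuclideanSpace.dist_eq, EuclideanSpace.dist_eq]
      congr 1
      simp only [Fin.sum_univ_two, Real.dist_eq, Matrix.cons_val_zero,
        Matrix.cons_val_one]
      rw [show -p.ofLp 1 - -q.ofLp 1 = -(p.ofLp 1 - q.ofLp 1) by ring, abs_neg])

theorem shift_apply_zero (t : ℝ) (p : Plane) : (shift t p) 0 = p 0 + t := by
  simp [shift]

theorem shift_apply_one (t : ℝ) (p : Plane) : (shift t p) 1 = p 1 := by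
  simp [shift]

theorem refl_apply_zero (p : Plane) : (refl p) 0 = p 0 := by
  simp [refl, IsometryEquiv.mk']

theorem refl_apply_one (p : Plane) : (refl p) 1 = - p 1 := by
  simp [refl, IsometryEquiv.mk']

/-- **Main result.** There is a Borel measurable vertically rigid function `f : ℝ → ℝ`, not of the
form `a + b x`, such that for every `c > 0` there is an isometry of the plane carrying
`graph (c f)` onto `graph f` which is not a translation and not an involution (so in particular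
neither a reflection nor a point reflection). -/
theorem result : ∃ f : ℝ → ℝ, Measurable f ∧ VerticallyRigid f ∧
    (¬ ∃ a b : ℝ, ∀ x, f x = a + b * x) ∧
    ∀ c : ℝ, 0 < c → ∃ φ : Plane ≃ᵢ Plane,
      ¬ IsTranslation φ ∧ ¬ (∀ p, φ (φ p) = p) ∧ φ '' graph (fun x => c * f x) = graph f := by
  refine ⟨f, measurable_f, ?_, ?_, ?_⟩
  · intro c hc
    obtain ⟨m, hm, hmc⟩ := χ_surj hc.ne'
    refine ⟨shift (Φ m), ?_⟩
    ext p
    constructor
    · rintro ⟨q, hq, rfl⟩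
      change (shift (Φ m) q) 1 = f ((shift (Φ m) q) 0)
      rw [shift_apply_zero, shift_apply_one, f_add hm, hmc]
      exact hq
    · intro hp
      refine ⟨(shift (Φ m)).symm p, ?_, (shift (Φ m)).apply_symm_apply p⟩
      set q := (shift (Φ m)).symm p with hq
      have hpq : shift (Φ m) q = p := (shift (Φ m)).apply_symm_apply p
      change q 1 = c * f (q 0)
      rw [← hpq] at hp
      change (shift (Φ m) q) 1 = f ((shift (Φ m) q) 0) at hp
      rw [shift_apply_zero, shift_apply_one, f_add hm, hmc] at hp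
      exact hp
  · rintro ⟨a, b, hab⟩
    obtain ⟨m, hm, hm2⟩ := χ_surj (two_ne_zero (α := ℝ))
    have h1 : f (Φ m) = 2 := by rw [f_Φ hm, hm2]
    have h2 : f (Φ m + Φ m) = 4 := by rw [f_add hm, h1, hm2]; norm_num
    have h3 : f (Φ m + Φ m + Φ m) = 8 := by rw [f_add hm, h2, hm2]; norm_num
    rw [hab] at h1 h2 h3
    linarith
  · intro c hc
    obtain ⟨m, hm, hmc⟩ := χ_surj (neg_ne_zero.2 hc.ne')
    have ht : Φ m ≠ 0 := by
      intro h0
      have h1 : f (Φ m) = -c := by rw [f_Φ hm, hmc]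
      have hz : Bdd (fun _ : ℕ => (0 : ℤ)) := ⟨0, mem_X.2 fun k => by simp⟩
      have h2 : f 0 = 1 := by
        have e : Φ (fun _ : ℕ => (0 : ℤ)) = 0 := by simp [Φ]
        rw [← e, f_Φ hz]
        simp [χ, ℓ]
      rw [h0, h2] at h1
      linarith
    have hφ0 : ∀ p : Plane, ((refl.trans (shift (Φ m))) p) 0 = p 0 + Φ m := by
      intro p
      rw [IsometryEquiv.trans_apply, shift_apply_zero, refl_apply_zero]
    have hφ1 : ∀ p : Plane, ((refl.trans (shift (Φ m))) p) 1 = - p 1 := by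
      intro p
      rw [IsometryEquiv.trans_apply, shift_apply_one, refl_apply_one]
    refine ⟨refl.trans (shift (Φ m)), ?_, ?_, ?_⟩
    · rintro ⟨v, hv⟩
      have h1 := hφ1 (!₂[0, 0] : Plane)
      have h2 := hφ1 (!₂[0, 1] : Plane)
      rw [hv] at h1 h2
      simp at h1 h2
      linarith
    · intro hinv
      have h1 := hφ0 (refl.trans (shift (Φ m)) (0 : Plane))
      rw [hinv, hφ0] at h1
      have : Φ m = 0 := by
        simp only [PiLp.zero_apply] at h1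
        linarith
      exact ht this
    · ext p
      constructor
      · rintro ⟨q, hq, rfl⟩
        change ((refl.trans (shift (Φ m))) q) 1 = f (((refl.trans (shift (Φ m))) q) 0)
        rw [hφ0, hφ1, f_add hm, hmc]
        have hq' : q 1 = c * f (q 0) := hq
        rw [hq']; ring
      · intro hp
        refine ⟨(refl.trans (shift (Φ m))).symm p, ?_,
          (refl.trans (shift (Φ m))).apply_symm_apply p⟩
        set q := (refl.trans (shift (Φ m))).symm p with hq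
        have hpq : (refl.trans (shift (Φ m))) q = p :=
          (refl.trans (shift (Φ m))).apply_symm_apply p
        change q 1 = c * f (q 0)
        rw [← hpq] at hp
        change ((refl.trans (shift (Φ m))) q) 1 = f (((refl.trans (shift (Φ m))) q) 0) at hp
        rw [hφ0, hφ1, f_add hm, hmc] at hp
        linarith

end Pool.Agent.Results.MP_f4f8d7_an.BorelGlide
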